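import Pool.Agent.H919.FP.Sch

/-!
# The glued scheme is separated and quasi-compact (helper216 for helper919)
-/

open CategoryTheory Limits AlgebraicGeometry

namespace Pool.Agent.H919.FP

namespace G2

/-- uniqueness of lifts over an open set over which `ρ` is an isomorphism -/
theorem uniq {S X V : Scheme.{0}} (ρ : X ⟶ S) (U : S.Opens) [IsIso (ρ ∣_ U)]
    (f g : V ⟶ X) (h : f ≫ ρ = g ≫ ρ) (hU : ∀ v, (f ≫ ρ) v ∈ U) : f = g := by
  have hr : Set.range (f ≫ ρ) ⊆ Set.range U.ι := by
    rintro _ ⟨v, rfl⟩
    rw [Scheme.Opens.range_ι]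
    exact hU v
  let φ : V ⟶ (U : Scheme.{0}) := IsOpenImmersion.lift U.ι (f ≫ ρ) hr
  have hφ : φ ≫ U.ι = f ≫ ρ := IsOpenImmersion.lift_fac _ _ _
  have hp := isPullback_morphismRestrict ρ U
  have key : ∀ k : V ⟶ X, φ ≫ U.ι = k ≫ ρ → k = φ ≫ inv (ρ ∣_ U) ≫ (ρ ⁻¹ᵁ U).ι := by
    intro k hk
    have h1 : hp.lift φ k hk ≫ (ρ ∣_ U) = φ := hp.lift_fst _ _ _
    have h2 : hp.lift φ k hk ≫ (ρ ⁻¹ᵁ U).ι = k := hp.lift_snd _ _ _
    have h3 : hp.lift φ k hk = φ ≫ inv (ρ ∣_ U) := by
      rw [IsIso.eq_comp_inv, h1]
    rw [← h2, h3, Category.assoc]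
  rw [key f hφ, key g (hφ.trans h)]

end G2

open G2

theorem t_G2 : S_G1 → S_G2 := by
  intro hG1 S W w U _ _ _ hUc
  obtain ⟨hW, hU, hcov, hover, hiso⟩ := hG1 w U
  have hρW : inW w U ≫ rho w U = w := pushout.inl_desc _ _ _
  have hρU : inU w U ≫ rho w U = U.ι := pushout.inr_desc _ _ _
  constructor
  · -- separated
    have hcl : IsClosed (Set.range (pullback.diagonal (rho w U))) := by
      let j : pullback w w ⟶ pullback (rho w U) (rho w U) :=
        pullback.map w w (rho w U) (rho w U) (inW w U) (inW w U) (𝟙 S) (by simp [hρW])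
          (by simp [hρW])
      have hj : IsOpenImmersion j := inferInstance
      have hrj : Set.range j = pullback.fst (rho w U) (rho w U) ⁻¹' Set.range (inW w U) ∩
          pullback.snd (rho w U) (rho w U) ⁻¹' Set.range (inW w U) :=
        Scheme.Pullback.range_map _ _ _ _ _ _ _ _ _
      have hΔ : pullback.diagonal w ≫ j = inW w U ≫ pullback.diagonal (rho w U) := by
        have hj1 : j ≫ pullback.fst (rho w U) (rho w U) = pullback.fst w w ≫ inW w U :=
          pullback.lift_fst _ _ _
        have hj2 : j ≫ pullback.snd (rho w U) (rho w U) = pullback.snd w w ≫ inW w U :=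
          pullback.lift_snd _ _ _
        apply pullback.hom_ext
        · rw [Category.assoc, hj1, Category.assoc, pullback.diagonal_fst_assoc,
            pullback.diagonal_fst, Category.comp_id]
        · rw [Category.assoc, hj2, Category.assoc, pullback.diagonal_snd_assoc,
            pullback.diagonal_snd, Category.comp_id]
      have hsep : IsSeparated w := inferInstance
      have hclW : IsClosed (Set.range (pullback.diagonal w)) :=
        (Scheme.Hom.isClosedEmbedding (pullback.diagonal w)).isClosed_range
      rw [← isOpen_compl_iff, isOpen_iff_forall_mem_open]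
      intro z hz
      -- the part over U
      by_cases hzU : (pullback.fst (rho w U) (rho w U) ≫ rho w U) z ∈ U
      · exfalso
        apply hz
        let O : (pullback (rho w U) (rho w U)).Opens :=
          (pullback.fst (rho w U) (rho w U) ≫ rho w U) ⁻¹ᵁ U
        have hzO : z ∈ O := hzU
        have e : O.ι ≫ pullback.fst (rho w U) (rho w U) = O.ι ≫ pullback.snd (rho w U) (rho w U) := by
          refine uniq (rho w U) U _ _ ?_ ?_
          · rw [Category.assoc, Category.assoc, pullback.condition]
          · intro v
            rw [Category.assoc, Scheme.Hom.comp_apply]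
            exact v.2
        have e2 : O.ι = (O.ι ≫ pullback.fst (rho w U) (rho w U)) ≫ pullback.diagonal (rho w U) := by
          apply pullback.hom_ext
          · simp
          · rw [Category.assoc, pullback.diagonal_snd, Category.comp_id, e]
        let z' : (O : Scheme.{0}) := ⟨z, hzO⟩
        refine ⟨(O.ι ≫ pullback.fst (rho w U) (rho w U)) z', ?_⟩
        exact (congr($(e2) z')).symm
      · -- not over U: both projections are in the image of W
        have hz1 : pullback.fst (rho w U) (rho w U) z ∈ Set.range (inW w U) := by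
          rcases hcov (pullback.fst (rho w U) (rho w U) z) with ⟨x, hx⟩ | h
          · exact ⟨x, hx⟩
          · exfalso
            apply hzU
            rw [Scheme.Hom.comp_apply]
            exact (hover _).2 h
        have hz2 : pullback.snd (rho w U) (rho w U) z ∈ Set.range (inW w U) := by
          rcases hcov (pullback.snd (rho w U) (rho w U) z) with ⟨x, hx⟩ | h
          · exact ⟨x, hx⟩
          · exfalso
            apply hzU
            rw [pullback.condition, Scheme.Hom.comp_apply]
            exact (hover _).2 h
        have hzj : z ∈ Set.range j := by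
          rw [hrj]; exact ⟨hz1, hz2⟩
        obtain ⟨z', rfl⟩ := hzj
        refine ⟨j '' (Set.range (pullback.diagonal w))ᶜ, ?_, ?_, ?_⟩
        · rintro _ ⟨y, hy, rfl⟩ ⟨x, hx⟩
          have h1 : x ∈ Set.range (inW w U) := by
            have h2 : pullback.fst (rho w U) (rho w U) (pullback.diagonal (rho w U) x) = x := by
              rw [← Scheme.Hom.comp_apply, pullback.diagonal_fst]
              rfl
            rw [← h2, hx]
            have h3 : j y ∈ Set.range j := ⟨y, rfl⟩
            rw [hrj] at h3
            exact h3.1
          obtain ⟨x', rfl⟩ := h1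
          apply hy
          refine ⟨x', ?_⟩
          apply j.isOpenEmbedding.injective
          rw [← hx, ← Scheme.Hom.comp_apply, hΔ, Scheme.Hom.comp_apply]
        · exact j.isOpenEmbedding.isOpenMap _ hclW.isOpen_compl
        · refine ⟨z', ?_, rfl⟩
          rintro ⟨x, rfl⟩
          apply hz
          refine ⟨inW w U x, ?_⟩
          rw [← Scheme.Hom.comp_apply, ← hΔ, Scheme.Hom.comp_apply]
    have himm : IsClosedImmersion (pullback.diagonal (rho w U)) :=
      IsClosedImmersion.of_isPreimmersion _ hcl
    exact ⟨himm⟩
  · -- quasi-compact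
    rw [quasiCompact_iff_compactSpace]
    have h1 : IsCompact (Set.range (inW w U)) := isCompact_range (inW w U).continuous
    have h2 : IsCompact (Set.range (inU w U)) := by
      have : CompactSpace (U : Scheme.{0}) := isCompact_iff_compactSpace.1 hUc
      exact isCompact_range (inU w U).continuous
    refine ⟨?_⟩
    have h3 : (Set.univ : Set (glue w U)) = Set.range (inW w U) ∪ Set.range (inU w U) := by
      ext z
      simp only [Set.mem_univ, true_iff]
      rcases hcov z with ⟨x, hx⟩ | ⟨x, hx⟩
      · exact Or.inl ⟨x, hx⟩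
      · exact Or.inr ⟨x, hx⟩
    rw [h3]
    exact h1.union h2

end Pool.Agent.H919.FP
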